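import Mathlib

open Set Filter Topology Asymptotics
open Cardinal hiding univ

namespace Pool.Agent.Results.MP_5d23e6_lc.HalfEqOpen

/-- number of elements of `A` below `n` -/
noncomputable def cnt (A : Set ℕ) (n : ℕ) : ℝ := ((A ∩ Iio n).ncard : ℝ)

noncomputable def ratio (B A : Set ℕ) (n : ℕ) : ℝ := cnt (A ∩ B) n / cnt B n

/-- the relative density of `A` in `B` exists and lies in `X` -/
def DensIn (X : Set ℝ) (B A : Set ℕ) : Prop :=
  liminf (ratio B A) atTop = limsup (ratio B A) atTop ∧ limsup (ratio B A) atTop ∈ X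

def Reaping (X : Set ℝ) (F : Set (Set ℕ)) : Prop :=
  (∀ R ∈ F, R.Infinite) ∧ ∀ S : Set ℕ, S.Infinite → Sᶜ.Infinite → ∃ R ∈ F, ¬ DensIn X R S

noncomputable def reap (X : Set ℝ) : Cardinal := sInf {c | ∃ F, Reaping X F ∧ #F = c}

lemma cnt_eq (A : Set ℕ) (n : ℕ) : cnt A n = ∑ i ∈ Finset.range n, A.indicator 1 i := by
  classical
  rw [Finset.sum_indicator_eq_sum_filter, cnt]
  simp only [Pi.one_apply, Finset.sum_const, nsmul_eq_mul, mul_one, Nat.cast_inj]
  rw [← ncard_coe_finset]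
  congr 1
  ext i
  simp [and_comm]

lemma cnt_nn (A : Set ℕ) (n : ℕ) : 0 ≤ cnt A n := Nat.cast_nonneg _

lemma cnt_mono {A B : Set ℕ} (h : A ⊆ B) (n : ℕ) : cnt A n ≤ cnt B n := by
  simp only [cnt, Nat.cast_le]
  exact ncard_le_ncard (inter_subset_inter_left _ h) ((finite_Iio n).inter_of_right _)

lemma cnt_add {A B C : Set ℕ} (h : Disjoint A B) (e : C = A ∪ B) (n : ℕ) :
    cnt C n = cnt A n + cnt B n := by
  simp only [cnt_eq, e, indicator_union_of_disjoint h, Finset.sum_add_distrib]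

lemma cnt_top {R : Set ℕ} (h : R.Infinite) : Tendsto (cnt R) atTop atTop := by
  refine tendsto_atTop_atTop_of_monotone (fun a b hab => ?_) fun b => ?_
  · simp only [cnt, Nat.cast_le]
    exact ncard_le_ncard (inter_subset_inter_right _ (Iio_subset_Iio hab))
      ((finite_Iio b).inter_of_right _)
  · obtain ⟨t, h1, h2⟩ := h.exists_subset_card_eq ⌈b⌉₊
    refine ⟨t.sup id + 1, (Nat.le_ceil b).trans ?_⟩
    simp only [cnt, Nat.cast_le]
    rw [← h2, ← ncard_coe_finset]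
    exact ncard_le_ncard (fun x hx => ⟨h1 hx, Nat.lt_succ_of_le (Finset.le_sup (f := id) hx)⟩)
      ((finite_Iio _).inter_of_right _)

lemma near {A B : Set ℕ} {m N : ℕ} (h : ∀ x, m ≤ x → x < N → (x ∈ A ↔ x ∈ B)) :
    |cnt A N - cnt B N| ≤ m := by
  have key : ∀ A B : Set ℕ, (∀ x, m ≤ x → x < N → (x ∈ A ↔ x ∈ B)) → cnt A N ≤ cnt B N + m :=
    fun A B h => by
      simp only [cnt]
      have h1 : (A ∩ Iio N).ncard ≤ (B ∩ Iio N ∪ Iio m).ncard :=
        ncard_le_ncard (fun x hx => (lt_or_ge x m).elim Or.inr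
          fun e => Or.inl ⟨(h x e hx.2).1 hx.1, hx.2⟩)
          (((finite_Iio N).inter_of_right _).union (finite_Iio m))
      have h2 := ncard_union_le (B ∩ Iio N) (Iio m)
      have h3 : (Iio m).ncard = m := by simp
      exact_mod_cast (by omega : (A ∩ Iio N).ncard ≤ (B ∩ Iio N).ncard + m)
  have h1 := key A B h
  have h2 := key B A fun x a b => (h x a b).symm
  rw [abs_le]
  constructor <;> linarith

def O (R S : Set ℕ) (ρ : ℝ) : Prop := (fun n => cnt (S ∩ R) n - ρ * cnt R n) =o[atTop] cnt R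

lemma O_iff {R S : Set ℕ} {ρ : ℝ} (h : R.Infinite) :
    O R S ρ ↔ Tendsto (ratio R S) atTop (𝓝 ρ) := by
  have h0 := (cnt_top h).eventually_gt_atTop 0
  rw [O, isLittleO_iff_tendsto' (h0.mono fun n hn e => absurd e hn.ne'),
    ← tendsto_sub_nhds_zero_iff (x := ρ)]
  refine tendsto_congr' (h0.mono fun n hn => ?_)
  simp only [ratio]
  field_simp

lemma dens_iff {X : Set ℝ} {R S : Set ℕ} (h : R.Infinite) : DensIn X R S ↔ ∃ ρ ∈ X, O R S ρ := by
  constructor
  · rintro ⟨h1, h2⟩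
    refine ⟨_, h2, (O_iff h).2 (tendsto_of_liminf_eq_limsup h1 rfl ?_ ?_)⟩
    · exact isBoundedUnder_of ⟨1, fun n =>
        div_le_one_of_le₀ (cnt_mono inter_subset_right n) (cnt_nn _ _)⟩
    · exact isBoundedUnder_of ⟨0, fun n => div_nonneg (cnt_nn _ _) (cnt_nn _ _)⟩
  · rintro ⟨ρ, h1, h2⟩
    rw [O_iff h] at h2
    exact ⟨h2.liminf_eq.trans h2.limsup_eq.symm, h2.limsup_eq ▸ h1⟩

lemma same {R R' S : Set ℕ} {a c : ℝ} (u m : ℕ → ℕ) (hu : Tendsto u atTop atTop)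
    (h1 : ∀ j x, m j ≤ x → x < u j → (x ∈ R ↔ x ∈ R'))
    (h2 : ∀ j : ℕ, (j + 1) * (m j : ℝ) < cnt R (u j)) (ha : O R S a) (hc : O R' S c) : a = c := by
  have e0 : (fun j => (m j : ℝ)) =o[atTop] (cnt R ∘ u) := isLittleO_iff.2 fun δ hδ => by
    filter_upwards [tendsto_natCast_atTop_atTop.eventually_ge_atTop (1 / δ)] with j hj
    rw [div_le_iff₀ hδ] at hj
    have := h2 j
    simp only [Function.comp, Real.norm_eq_abs, Nat.abs_cast, abs_of_nonneg (cnt_nn _ _)]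
    have h3 : (0 : ℝ) ≤ m j := Nat.cast_nonneg _
    nlinarith [mul_le_mul_of_nonneg_left this.le hδ.le]
  have e1 : (fun j => cnt R (u j) - cnt R' (u j)) =o[atTop] (cnt R ∘ u) :=
    (IsBigO.of_norm_le fun j => near (h1 j)).trans_isLittleO e0
  have e2 : (fun j => cnt (S ∩ R) (u j) - cnt (S ∩ R') (u j)) =o[atTop] (cnt R ∘ u) :=
    (IsBigO.of_norm_le fun j => near fun x p q => and_congr_right fun _ => h1 j x p q).trans_isLittleO
      e0
  have e3 : (cnt R' ∘ u) =O[atTop] (cnt R ∘ u) :=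
    ((isBigO_refl (cnt R ∘ u) atTop).sub e1.isBigO).congr_left fun j => by simp
  have e4 := ((((hc.comp_tendsto hu).trans_isBigO e3).sub (ha.comp_tendsto hu)).add e2).sub
    (e1.const_mul_left c)
  by_contra hne
  have e5 : (cnt R ∘ u) =o[atTop] (cnt R ∘ u) := by
    rw [← isLittleO_const_mul_left_iff (sub_ne_zero.2 hne)]
    refine e4.congr_left fun j => ?_
    simp only [Function.comp]
    ring
  refine isLittleO_irrefl (Frequently.of_forall fun j => ?_) e5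
  exact (lt_of_le_of_lt (by positivity) (h2 j)).ne'

lemma alt {R0 R1 : Set ℕ} (h0 : R0.Infinite) (h1 : R1.Infinite) : ∃ R' : Set ℕ, R'.Infinite ∧
    ∀ S a b c, O R0 S a → O R1 S b → O R' S c → a = b := by
  have : ∀ k m : ℕ, ∃ N, m < N ∧ (k + 1) * (m : ℝ) < cnt R0 N ∧ (k + 1) * (m : ℝ) < cnt R1 N :=
    fun k m => ((eventually_gt_atTop m).and (((cnt_top h0).eventually_gt_atTop _).and
      ((cnt_top h1).eventually_gt_atTop _))).exists
  choose nx g1 g2 g3 using this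
  obtain ⟨n, hs⟩ : ∃ n : ℕ → ℕ, ∀ k, n (k + 1) = nx k (n k) :=
    ⟨fun k => Nat.rec 0 (fun k N => nx k N) k, fun _ => rfl⟩
  have hn : StrictMono n := strictMono_nat_of_lt_succ fun k => hs k ▸ g1 k (n k)
  have g4 : ∀ k : ℕ, (k + 1) * (n k : ℝ) < cnt R0 (n (k + 1)) := fun k => by
    rw [hs]; exact g2 _ _
  have g5 : ∀ k : ℕ, (k + 1) * (n k : ℝ) < cnt R1 (n (k + 1)) := fun k => by
    rw [hs]; exact g3 _ _
  let W : Set ℕ := {x | ∃ j, n (2 * j) ≤ x ∧ x < n (2 * j + 1)}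
  have w1 : ∀ j x, n (2 * j) ≤ x → x < n (2 * j + 1) → (x ∈ R0 ↔ x ∈ R0 ∩ W ∪ R1 \ W) :=
    fun j x p q => by
      have : x ∈ W := ⟨j, p, q⟩
      simp [this]
  have w2 : ∀ j x, n (2 * j + 1) ≤ x → x < n (2 * j + 1 + 1) → (x ∈ R1 ↔ x ∈ R0 ∩ W ∪ R1 \ W) :=
    fun j x p q => by
      have : x ∉ W := fun ⟨i, a, b⟩ => by
        have := hn.lt_iff_lt.1 (a.trans_lt q)
        have := hn.lt_iff_lt.1 (p.trans_lt b)
        omega
      simp [this]
  have le : ∀ (j k : ℕ) (y : ℝ), j ≤ k → (k + 1) * (n k : ℝ) < y → (j + 1) * (n k : ℝ) < y :=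
    fun j k y p q => lt_of_le_of_lt (by gcongr) q
  refine ⟨R0 ∩ W ∪ R1 \ W, infinite_of_forall_exists_gt fun y => ?_, fun S a b c ha hb hc => ?_⟩
  · by_contra hc
    push Not at hc
    have e1 := near (A := R0) (B := ∅) (m := n (2 * (y + 1))) (N := n (2 * (y + 1) + 1))
      fun x p q => ⟨fun r => by
        have := hc x ((w1 _ x p q).1 r)
        have := hn.le_apply (x := 2 * (y + 1))
        omega, fun r => r.elim⟩
    have e2 := le 0 _ _ (Nat.zero_le _) (g4 (2 * (y + 1)))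
    have e3 : cnt ∅ (n (2 * (y + 1) + 1)) = 0 := by simp [cnt]
    rw [e3, abs_le] at e1
    simp only [Nat.cast_zero, zero_add, one_mul] at e2
    linarith [e1.2]
  · have t : ∀ i, Tendsto (fun j => n (2 * j + i)) atTop atTop := fun i =>
      hn.tendsto_atTop.comp (tendsto_atTop_mono (fun j => by simp only [id]; omega) tendsto_id)
    exact (same _ _ (t 1) w1 (fun j => le j _ _ (by omega) (g4 _)) ha hc).trans
      (same _ _ (t 2) w2 (fun j => le j _ _ (by omega) (g5 _)) hb hc).symm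

lemma common {κ : Cardinal} (hκ : ℵ₀ ≤ κ) (H : ∀ G : Set (Set ℕ), (∀ R ∈ G, R.Infinite) → #G ≤ κ →
    ∃ S, ∀ R ∈ G, ∃ ρ ∈ Ioo (0 : ℝ) 1, O R S ρ) (G : Set (Set ℕ)) (h1 : ∀ R ∈ G, R.Infinite)
    (h2 : #G ≤ κ) : ∃ S, ∃ ρ ∈ Ioo (0 : ℝ) 1, ∀ R ∈ G, O R S ρ := by
  choose f f1 f2 using fun R : G => alt infinite_univ (h1 R R.2)
  obtain ⟨S, hS⟩ := H (insert univ (G ∪ range f)) (by
    rintro R (rfl | h | ⟨R, rfl⟩)
    exacts [infinite_univ, h1 R h, f1 R]) (mk_insert_le.trans (add_le_of_le hκ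
      ((mk_union_le _ _).trans (add_le_of_le hκ h2 (mk_range_le.trans h2))) (one_le_aleph0.trans hκ)))
  obtain ⟨ρ, r1, r2⟩ := hS univ (Or.inl rfl)
  refine ⟨S, ρ, r1, fun R hR => ?_⟩
  obtain ⟨b, -, hb⟩ := hS R (Or.inr (Or.inl hR))
  obtain ⟨c, -, hc⟩ := hS _ (Or.inr (Or.inr ⟨⟨R, hR⟩, rfl⟩))
  exact f2 ⟨R, hR⟩ S ρ b c r2 hb hc ▸ hb

lemma unif {κ : Cardinal} (hκ : ℵ₀ ≤ κ) (H : ∀ G : Set (Set ℕ), (∀ R ∈ G, R.Infinite) → #G ≤ κ →
    ∃ S, ∃ ρ ∈ Ioo (0 : ℝ) 1, ∀ R ∈ G, O R S ρ) : ∃ ε > (0 : ℝ), ∀ G : Set (Set ℕ),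
    (∀ R ∈ G, R.Infinite) → #G ≤ κ → ∃ S ρ, ε < ρ ∧ ε < 1 - ρ ∧ ∀ R ∈ G, O R S ρ := by
  by_contra hc
  push Not at hc
  choose G g1 g2 g3 using fun j : ℕ => hc (1 / (j + 1)) (by positivity)
  obtain ⟨S, ρ, r1, r2⟩ := H (⋃ j, G j) (fun R hR => by
    obtain ⟨j, hj⟩ := mem_iUnion.1 hR
    exact g1 j R hj) ((mk_iUnion_le G).trans (mul_le_of_le hκ (by simpa using hκ) (ciSup_le' g2)))
  obtain ⟨j, hj⟩ := exists_nat_one_div_lt (lt_min r1.1 (sub_pos.2 r1.2))
  obtain ⟨R, a, b⟩ := g3 j S ρ (hj.trans_le (min_le_left _ _)) (hj.trans_le (min_le_right _ _))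
  exact b (r2 R (mem_iUnion.2 ⟨j, a⟩))

lemma inf_of_O {R P : Set ℕ} {m : ℝ} (h : R.Infinite) (hm : 0 < m) (hP : O R P m) :
    (P ∩ R).Infinite := fun hf => by
  have : Tendsto (ratio R P) atTop (𝓝 0) := by
    refine squeeze_zero (fun n => div_nonneg (cnt_nn _ _) (cnt_nn _ _)) (fun n => ?_)
      ((cnt_top h).const_div_atTop ((P ∩ R).ncard : ℝ))
    refine div_le_div_of_nonneg_right ?_ (cnt_nn _ _)
    simp only [cnt, Nat.cast_le]
    exact ncard_le_ncard inter_subset_left hf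
  exact hm.ne' (tendsto_nhds_unique ((O_iff h).1 hP) this)

lemma O_add {R A B : Set ℕ} {a b : ℝ} (h : Disjoint A B) (ha : O R A a) (hb : O R B b) :
    O R (A ∪ B) (a + b) := (IsLittleO.add ha hb).congr_left fun n => by
  rw [cnt_add (h.mono inter_subset_left inter_subset_left) (union_inter_distrib_right A B R)]
  ring

lemma O_sub {R A B : Set ℕ} {a b : ℝ} (h : B ⊆ A) (ha : O R A a) (hb : O R B b) :
    O R (A \ B) (a - b) := (IsLittleO.sub ha hb).congr_left fun n => by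
  rw [cnt_add (A := B ∩ R) (B := (A \ B) ∩ R) (C := A ∩ R)
    (disjoint_sdiff_right.mono inter_subset_left inter_subset_left)
    (by rw [← union_inter_distrib_right, union_sdiff_cancel h])]
  ring

lemma O_univ (R : Set ℕ) : O R univ 1 := by simp [O]

lemma bisect {κ : Cardinal} {ε : ℝ} (hε : 0 < ε) (H : ∀ G : Set (Set ℕ),
    (∀ R ∈ G, R.Infinite) → #G ≤ κ → ∃ S ρ, ε < ρ ∧ ε < 1 - ρ ∧ ∀ R ∈ G, O R S ρ)
    (F : Set (Set ℕ)) (h1 : ∀ R ∈ F, R.Infinite) (h2 : #F ≤ κ) : ∃ S, ∀ R ∈ F, O R S (1 / 2) := by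
  let Inv : (Set ℕ × Set ℕ) × ℝ × ℝ → Prop := fun z => 0 < z.2.1 ∧ z.2.2 ≤ 1 / 2 ∧
    1 / 2 ≤ z.2.2 + z.2.1 ∧ Disjoint z.1.2 z.1.1 ∧ ∀ R ∈ F, O R z.1.1 z.2.1 ∧ O R z.1.2 z.2.2
  have step : ∀ z : Subtype Inv, ∃ w : Subtype Inv, w.1.2.1 ≤ (1 - ε) * z.1.2.1 ∧
      z.1.1.2 ⊆ w.1.1.2 ∧ w.1.1.2 ∪ w.1.1.1 ⊆ z.1.1.2 ∪ z.1.1.1 := by
    rintro ⟨⟨⟨P, S⟩, m, s⟩, i1, i2, i3, i4, i5⟩
    simp only at i1 i2 i3 i4 i5
    obtain ⟨T, ρ, r1, r2, r3⟩ := H ((P ∩ ·) '' F) (by
      rintro _ ⟨R, hR, rfl⟩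
      exact inf_of_O (h1 R hR) i1 (i5 R hR).1) (mk_image_le.trans h2)
    have t1 : ∀ R ∈ F, O R (T ∩ P) (ρ * m) := fun R hR =>
      (((r3 _ ⟨R, hR, rfl⟩).trans_isBigO (IsBigO.of_norm_le fun n => by
        rw [Real.norm_of_nonneg (cnt_nn _ _)]
        exact cnt_mono inter_subset_right n)).add ((i5 R hR).1.const_mul_left ρ)).congr_left
        fun n => by
          rw [inter_assoc]
          ring
    by_cases hs : s + ρ * m ≤ 1 / 2
    · refine ⟨⟨((P \ (T ∩ P), S ∪ T ∩ P), m - ρ * m, s + ρ * m), by simp only; nlinarith, hs,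
        by simp only; linarith, disjoint_union_left.2 ⟨i4.mono_right sdiff_subset, disjoint_sdiff_right⟩,
        fun R hR => ⟨O_sub inter_subset_right (i5 R hR).1 (t1 R hR),
          O_add (i4.mono_right inter_subset_right) (i5 R hR).2 (t1 R hR)⟩⟩,
        by simp only; nlinarith, subset_union_left, ?_⟩
      rintro x ((h | h) | h)
      exacts [Or.inl h, Or.inr h.2, Or.inr h.1]
    · refine ⟨⟨((T ∩ P, S), ρ * m, s), by simp only; nlinarith, i2, (not_le.1 hs).le,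
        i4.mono_right inter_subset_right, fun R hR => ⟨t1 R hR, (i5 R hR).2⟩⟩,
        by simp only; nlinarith, Subset.rfl, union_subset_union_right _ inter_subset_right⟩
  choose f f1 f2 f3 using step
  let z0 : Subtype Inv := ⟨((univ, ∅), 1, 0), one_pos, by norm_num, by norm_num, by simp,
    fun R _ => ⟨O_univ R, by simp [O, cnt]⟩⟩
  let z : ℕ → Subtype Inv := fun k => f^[k] z0
  have zs : ∀ k, z (k + 1) = f (z k) := fun k => Function.iterate_succ_apply' _ _ _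
  have hε1 : ε < 1 := by
    have := f1 z0
    have := (f z0).2.1
    simp only [z0] at *
    linarith
  have zm : ∀ k, (z k).1.2.1 ≤ (1 - ε) ^ k := fun k => by
    induction k with
    | zero => simp [z, z0]
    | succ k ih =>
      rw [zs, pow_succ']
      exact (f1 _).trans (mul_le_mul_of_nonneg_left ih (by linarith))
  have m1 : Monotone fun k => (z k).1.1.2 := monotone_nat_of_le_succ fun k => zs k ▸ f2 _
  have m2 : Antitone fun k => (z k).1.1.2 ∪ (z k).1.1.1 :=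
    antitone_nat_of_succ_le fun k => zs k ▸ f3 _
  refine ⟨⋃ k, (z k).1.1.2, fun R hR => isLittleO_iff.2 fun δ hδ => ?_⟩
  obtain ⟨k, hk⟩ := exists_pow_lt_of_lt_one (show 0 < δ / 3 by positivity) (show 1 - ε < 1 by linarith)
  obtain ⟨i1, i2, i3, i4, i5⟩ := (z k).2
  have a1 : ⋃ k, (z k).1.1.2 ⊆ (z k).1.1.2 ∪ (z k).1.1.1 := iUnion_subset fun j =>
    (le_total j k).elim (fun e => (m1 e).trans subset_union_left)
      fun e => subset_union_left.trans (m2 e)
  filter_upwards [isLittleO_iff.1 (i5 R hR).2 (show 0 < δ / 3 by positivity),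
    isLittleO_iff.1 (O_add i4 (i5 R hR).2 (i5 R hR).1) (show 0 < δ / 3 by positivity)] with n b1 b2
  have b3 := cnt_mono (inter_subset_inter_left R a1) n
  have b4 := cnt_mono (inter_subset_inter_left R (subset_iUnion (fun k => (z k).1.1.2) k)) n
  have b5 := cnt_nn R n
  have b6 := (zm k).trans hk.le
  simp only [Real.norm_eq_abs, abs_of_nonneg b5, abs_le] at b1 b2 ⊢
  constructor <;> nlinarith [b1.1, b2.2]

lemma fin_case (F : Set (Set ℕ)) (hF : F.Finite) : ∀ A : Set ℕ, ∃ S ⊆ A, ∀ R ∈ insert univ F,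
    (fun n => cnt (S ∩ R) n - 1 / 2 * cnt (A ∩ R) n) =O[atTop] fun _ => (1 : ℝ) := by
  induction F, hF using Set.Finite.induction_on with
  | empty =>
    intro A
    refine ⟨{n ∈ A | ∃ k : ℕ, cnt A n = 2 * k}, sep_subset _ _, fun R hR => ?_⟩
    obtain rfl : R = univ := by simpa using hR
    simp only [inter_univ]
    have : ∀ n, ∃ k : ℕ, cnt A n = 2 * k ∧ cnt {n ∈ A | ∃ k : ℕ, cnt A n = 2 * k} n = k ∨
        cnt A n = 2 * k + 1 ∧ cnt {n ∈ A | ∃ k : ℕ, cnt A n = 2 * k} n = k + 1 := fun n => by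
      induction n with
      | zero => exact ⟨0, Or.inl (by simp [cnt])⟩
      | succ n ih =>
        have e : ∀ B : Set ℕ, cnt B (n + 1) = cnt B n + B.indicator 1 n := fun B => by
          rw [cnt_eq, cnt_eq, Finset.sum_range_succ]
        rw [e, e]
        obtain ⟨k, ⟨p, q⟩ | ⟨p, q⟩⟩ := ih
        · by_cases h : n ∈ A
          · refine ⟨k, Or.inr ?_⟩
            rw [indicator_of_mem h, indicator_of_mem (by exact ⟨h, k, p⟩), p, q]
            simp
          · refine ⟨k, Or.inl ?_⟩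
            rw [indicator_of_notMem h, indicator_of_notMem (fun a => h a.1), p, q]
            simp
        · have h' : n ∉ {n ∈ A | ∃ k : ℕ, cnt A n = 2 * k} := fun ⟨_, j, a⟩ => by
            rw [p] at a
            have : 2 * k + 1 = 2 * j := by exact_mod_cast a
            omega
          rw [indicator_of_notMem h', p, q]
          by_cases h : n ∈ A
          · refine ⟨k + 1, Or.inl ?_⟩
            rw [indicator_of_mem h]
            push_cast
            simp only [Pi.one_apply]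
            constructor <;> ring
          · refine ⟨k, Or.inr ?_⟩
            rw [indicator_of_notMem h]
            simp
    refine IsBigO.of_norm_le fun n => ?_
    obtain ⟨k, ⟨p, q⟩ | ⟨p, q⟩⟩ := this n <;> rw [p, q, Real.norm_eq_abs, abs_le] <;>
      constructor <;> linarith
  | @insert R0 F _ _ ih =>
    intro A
    obtain ⟨S1, a1, a2⟩ := ih (A ∩ R0)
    obtain ⟨S2, b1, b2⟩ := ih (A \ R0)
    have d : Disjoint (A ∩ R0) (A \ R0) := disjoint_sdiff_right.mono_left inter_subset_right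
    refine ⟨S1 ∪ S2, union_subset (a1.trans inter_subset_left) (b1.trans sdiff_subset), ?_⟩
    have g : ∀ R ∈ insert univ F, (fun n => cnt ((S1 ∪ S2) ∩ R) n - 1 / 2 * cnt (A ∩ R) n) =O[atTop]
        fun _ => (1 : ℝ) := fun R hR => ((a2 R hR).add (b2 R hR)).congr_left fun n => by
      rw [cnt_add ((d.mono a1 b1).mono inter_subset_left inter_subset_left)
        (union_inter_distrib_right S1 S2 R), cnt_add (C := A ∩ R)
        (d.mono inter_subset_left inter_subset_left)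
        (by rw [← union_inter_distrib_right, inter_union_sdiff])]
      ring
    rintro R (rfl | rfl | h)
    · exact g _ (Or.inl rfl)
    · have e : (S1 ∪ S2) ∩ R = S1 := by
        ext x
        exact ⟨fun h => h.1.elim id fun k => absurd h.2 (b1 k).2, fun h => ⟨Or.inl h, (a1 h).2⟩⟩
      simpa only [e, inter_univ] using a2 univ (Or.inl rfl)
    · exact g R (Or.inr h)

theorem result : reap {1 / 2} = reap (Ioo 0 1) := by
  have mono : ∀ F, Reaping (Ioo 0 1) F → Reaping {1 / 2} F := fun F h =>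
    ⟨h.1, fun S a b => (h.2 S a b).imp fun R r => ⟨r.1, fun k => r.2 ⟨k.1, by
      rw [k.2]; norm_num⟩⟩⟩
  have ne : Reaping (Ioo 0 1) {R | R.Infinite} := ⟨fun _ h => h, fun S a _ => ⟨S, a, fun k => by
    obtain ⟨ρ, r1, r2⟩ := (dens_iff a).1 k
    have r3 : O S S 1 := by simp [O]
    exact r1.2.ne (tendsto_nhds_unique ((O_iff a).1 r2) ((O_iff a).1 r3))⟩⟩
  apply le_antisymm
  · exact csInf_le_csInf' ⟨_, _, ne, rfl⟩ fun c ⟨F, h, e⟩ => ⟨F, mono F h, e⟩
  obtain ⟨F, hF, e⟩ : reap {1 / 2} ∈ {c | ∃ F, Reaping {1 / 2} F ∧ #F = c} :=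
    csInf_mem ⟨_, _, mono _ ne, rfl⟩
  by_contra hc
  rw [not_le, ← e] at hc
  have i1 : ∀ R ∈ insert univ F, R.Infinite := by
    rintro R (rfl | h)
    exacts [infinite_univ, hF.1 R h]
  obtain ⟨S, hS⟩ : ∃ S, ∀ R ∈ insert univ F, O R S (1 / 2) := by
    by_cases hf : F.Finite
    · obtain ⟨S, -, hS⟩ := fin_case F hf univ
      refine ⟨S, fun R hR => ?_⟩
      have := (hS R hR).trans_isLittleO ((isLittleO_one_left_iff ℝ).2
        (tendsto_norm_atTop_atTop.comp (cnt_top (i1 R hR))))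
      simpa only [O, univ_inter] using this
    have hκ : ℵ₀ ≤ #F := by
      have := Set.infinite_coe_iff.2 hf
      exact aleph0_le_mk F
    obtain ⟨ε, h1, h2⟩ := unif hκ (common hκ fun G g1 g2 => by
      by_contra g3
      push Not at g3
      refine (g2.trans_lt hc).not_ge (csInf_le' ⟨G, ⟨g1, fun S _ _ => ?_⟩, rfl⟩)
      obtain ⟨R, r1, r2⟩ := g3 S
      exact ⟨R, r1, fun k => by
        obtain ⟨ρ, p, q⟩ := (dens_iff (g1 R r1)).1 k
        exact r2 ρ p q⟩)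
    exact bisect h1 h2 _ i1 (mk_insert_le.trans (add_le_of_le hκ le_rfl (one_le_aleph0.trans hκ)))
  have u := hS univ (Or.inl rfl)
  obtain ⟨R, r1, r2⟩ := hF.2 S (by simpa using inf_of_O infinite_univ (by norm_num) u) (by
    simpa [compl_eq_univ_sdiff] using
      inf_of_O infinite_univ (by norm_num) (O_sub (subset_univ S) (O_univ _) u))
  exact r2 ((dens_iff (hF.1 R r1)).2 ⟨_, rfl, hS R (Or.inr r1)⟩)

end Pool.Agent.Results.MP_5d23e6_lc.HalfEqOpen
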